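import Mathlib
import Pool.Agent.H.MP_ca8afd_an.C

namespace Pool.Agent.Results.MP_ca8afd_an.Counter
open MeasureTheory

@[reducible] noncomputable def weakStar {S : Type} [MeasurableSpace S] (σ : Measure S) :
    TopologicalSpace (Lp ℂ ⊤ σ) :=
  ⨅ g : Lp ℂ 1 σ, TopologicalSpace.induced (fun u : Lp ℂ ⊤ σ => ∫ s, u s * g s ∂σ) inferInstance

noncomputable def wsClosure {S : Type} [TopologicalSpace S] [MeasurableSpace S]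
    (A : Subalgebra ℂ C(S, ℂ)) (σ : Measure S) : Set (Lp ℂ ⊤ σ) :=
  @closure _ (weakStar σ) {u | ∃ f ∈ A, u =ᵐ[σ] f}

def Hinf : Set (Metric.ball (0 : ℂ) 1 → ℂ) :=
  {f | (∃ F : ℂ → ℂ, DifferentiableOn ℂ F (Metric.ball 0 1) ∧ ∀ z, f z = F z) ∧
    ∃ C : ℝ, ∀ z, ‖f z‖ ≤ C}

def CharsArePoints {S : Type} [TopologicalSpace S] [CompactSpace S]
    (A : Subalgebra ℂ C(S, ℂ)) : Prop :=
  ∀ φ : A →ₐ[ℂ] ℂ, Continuous φ → ∃! s : S, ∀ f : A, φ f = (f : C(S, ℂ)) s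

def UnitsAreExps {S : Type} [TopologicalSpace S] (A : Subalgebra ℂ C(S, ℂ)) : Prop :=
  ∀ f ∈ A, ∀ h ∈ A, f * h = 1 → ∃ g ∈ A, ∀ s, f s = Complex.exp (g s)

def Standing {S : Type} [TopologicalSpace S] [CompactSpace S] (A : Subalgebra ℂ C(S, ℂ)) : Prop :=
  IsClosed (A : Set C(S, ℂ)) ∧ CharsArePoints A ∧ UnitsAreExps A

def AddOn {S : Type} [MeasurableSpace S] {σ : Measure S} (B : Set (Lp ℂ ⊤ σ))
    (Φ : Lp ℂ ⊤ σ → Metric.ball (0 : ℂ) 1 → ℂ) : Prop :=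
  ∀ u ∈ B, ∀ v ∈ B, Φ (u + v) = Φ u + Φ v

def HomogOn {S : Type} [MeasurableSpace S] {σ : Measure S} (B : Set (Lp ℂ ⊤ σ))
    (Φ : Lp ℂ ⊤ σ → Metric.ball (0 : ℂ) 1 → ℂ) : Prop :=
  ∀ c : ℂ, ∀ u ∈ B, Φ (c • u) = c • Φ u

def MulOn {S : Type} [MeasurableSpace S] {σ : Measure S} (B : Set (Lp ℂ ⊤ σ))
    (Φ : Lp ℂ ⊤ σ → Metric.ball (0 : ℂ) 1 → ℂ) : Prop :=
  ∀ u ∈ B, ∀ v ∈ B, ∀ w ∈ B, (w =ᵐ[σ] fun s => u s * v s) → Φ w = Φ u * Φ v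

def IsoToHinf {S : Type} [MeasurableSpace S] {σ : Measure S} (B : Set (Lp ℂ ⊤ σ)) : Prop :=
  ∃ Φ : Lp ℂ ⊤ σ → Metric.ball (0 : ℂ) 1 → ℂ,
    Set.BijOn Φ B Hinf ∧ AddOn B Φ ∧ HomogOn B Φ ∧ MulOn B Φ

def RealConst {S : Type} [MeasurableSpace S] {σ : Measure S} (B : Set (Lp ℂ ⊤ σ)) : Prop :=
  ∀ u ∈ B, (∀ᵐ s ∂σ, (u s).im = 0) → ∃ c : ℂ, u =ᵐ[σ] fun _ => c

def SumDense {S : Type} [TopologicalSpace S] [MeasurableSpace S]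
    (A : Subalgebra ℂ C(S, ℂ)) (σ : Measure S) : Prop :=
  @Dense _ (weakStar σ) {u | ∃ f ∈ A, ∃ g ∈ A, u =ᵐ[σ] fun s => f s + star (g s)}

theorem result : ∃ (S : Type) (_ : TopologicalSpace S) (_ : CompactSpace S) (_ : T2Space S)
    (_ : MeasurableSpace S) (_ : BorelSpace S) (A : Subalgebra ℂ C(S, ℂ)) (σ : Measure S),
    IsFiniteMeasure σ ∧ Standing A ∧ σ.support.Nontrivial ∧
    RealConst (wsClosure A σ) ∧ SumDense A σ ∧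
    ¬ IsoToHinf (wsClosure A σ) := by
  open Pool.Agent.H.MP_ca8afd_an in
  refine ⟨Pool.Agent.H.MP_ca8afd_an.S, inferInstance, inferInstance, inferInstance,
    inferInstance, inferInstance, A, σ, inferInstance, ⟨A_closed, chars, exps⟩, supp, H1, H2, ?_⟩
  rintro ⟨Φ, hb, -, hs, hm⟩
  obtain ⟨u, hu, v, hv, u0, v0, h0, e⟩ := Pool.Agent.H.MP_ca8afd_an.zd
  have z0 : Φ 0 = 0 := by simpa using hs 0 0 h0
  have p := hm u hu v hv 0 h0 e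
  obtain ⟨⟨F, hF, eF⟩, -⟩ := hb.mapsTo hu
  obtain ⟨⟨G, hG, eG⟩, -⟩ := hb.mapsTo hv
  rcases (hF.analyticOnNhd Metric.isOpen_ball).eq_zero_or_eq_zero_of_mul_eq_zero
    (hG.analyticOnNhd Metric.isOpen_ball) (fun x hx => by
      rw [← eF ⟨x, hx⟩, ← eG ⟨x, hx⟩]
      exact (congrFun (p.symm.trans z0) ⟨x, hx⟩ :)) (convex_ball _ _).isPreconnected with h | h
  · exact u0 (hb.injOn hu h0 (by rw [z0]; funext x; rw [eF, h x x.2]; rfl))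
  · exact v0 (hb.injOn hv h0 (by rw [z0]; funext x; rw [eG, h x x.2]; rfl))

end Pool.Agent.Results.MP_ca8afd_an.Counter
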